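import Pool.Agent.Helper12.AD.Stmts

/-!
# AD: vertices, arcs and gaps (rows VTX, HAR, HGP, IAR)
-/

set_option autoImplicit false

open scoped MeasureTheory ENNReal
open Complex

noncomputable section

namespace AD

theorem v5_e_re (θ : ℝ) : (AX.e θ).re = Real.cos θ := by
  unfold AX.e; exact Complex.exp_ofReal_mul_I_re θ

theorem v5_e_im (θ : ℝ) : (AX.e θ).im = Real.sin θ := by
  unfold AX.e; exact Complex.exp_ofReal_mul_I_im θ

/-- the scalar product with the unit vector -/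
theorem v5_g (z : ℂ) (θ : ℝ) : (z * (starRingEnd ℂ) (AX.e θ)).re =
    z.re * Real.cos θ + z.im * Real.sin θ := by
  rw [Complex.mul_re, Complex.conj_re, Complex.conj_im, v5_e_re, v5_e_im]; ring

theorem v5_g' (z : ℂ) (θ : ℝ) : (z * (starRingEnd ℂ) (-I * AX.e θ)).re =
    z.re * Real.sin θ - z.im * Real.cos θ := by
  have h1 : (-I * AX.e θ).re = Real.sin θ := by
    simp [Complex.mul_re, v5_e_re, v5_e_im]
  have h2 : (-I * AX.e θ).im = -Real.cos θ := by
    simp [Complex.mul_im, v5_e_re, v5_e_im]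
  rw [Complex.mul_re, Complex.conj_re, Complex.conj_im, h1, h2]; ring

theorem v5_pt_re (c : ℂ) (r θ : ℝ) : (c + (r : ℂ) * AX.e θ).re = c.re + r * Real.cos θ := by
  rw [Complex.add_re, Complex.re_ofReal_mul, v5_e_re]

theorem v5_pt_im (c : ℂ) (r θ : ℝ) : (c + (r : ℂ) * AX.e θ).im = c.im + r * Real.sin θ := by
  rw [Complex.add_im, Complex.im_ofReal_mul, v5_e_im]

theorem v5_dist_sq (z w : ℂ) : dist z w ^ 2 = (z.re - w.re) ^ 2 + (z.im - w.im) ^ 2 := by
  rw [Complex.dist_eq, Complex.sq_norm, Complex.normSq_apply, Complex.sub_re, Complex.sub_im]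
  ring

theorem v5_dist_le {z w : ℂ} {r : ℝ} (h : dist z w ≤ r) :
    (z.re - w.re) ^ 2 + (z.im - w.im) ^ 2 ≤ r ^ 2 := by
  rw [← v5_dist_sq]
  exact pow_le_pow_left₀ dist_nonneg h 2

/-- (VTX) -/
theorem st_VTX : ST_VTX := by
  intro r c c' b hr h1 h2
  set b' := b + 2 * AX.dl r c c' with hb'
  have hd : dist c c' ≤ 2 * r := by
    have h3 : dist c (c + (r : ℂ) * AX.e b) = r := by
      rw [dist_eq_norm, sub_add_cancel_left, norm_neg, norm_mul, Complex.norm_real, AX.e,
        Complex.norm_exp_ofReal_mul_I, mul_one, Real.norm_of_nonneg hr.le]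
    calc dist c c' ≤ dist c (c + (r : ℂ) * AX.e b) + dist (c + (r : ℂ) * AX.e b) c' :=
          dist_triangle _ _ _
      _ ≤ 2 * r := by linarith
  have hsin : Real.sin (AX.dl r c c') = dist c c' / (2 * r) := by
    unfold AX.dl
    rw [Real.sin_arcsin]
    · have : 0 ≤ dist c c' / (2 * r) := by positivity
      linarith
    · rw [div_le_one (by positivity)]; exact hd
  have hcos : Real.cos (b' - b) = 1 - 2 * (dist c c' / (2 * r)) ^ 2 := by
    rw [hb', add_sub_cancel_left, Real.cos_two_mul, ← hsin]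
    have := Real.sin_sq_add_cos_sq (AX.dl r c c')
    nlinarith
  rw [Real.cos_sub, div_pow, v5_dist_sq] at hcos
  have g1 := v5_dist_le h1
  have g2 := v5_dist_le h2
  rw [v5_pt_re, v5_pt_im] at g1 g2
  have e1 := Real.sin_sq_add_cos_sq b
  have e2 := Real.sin_sq_add_cos_sq b'
  set C := Real.cos b
  set S := Real.sin b
  set C' := Real.cos b'
  set S' := Real.sin b'
  have hcos' : 2 * r ^ 2 * (1 - (C' * C + S' * S)) =
      (c.re - c'.re) ^ 2 + (c.im - c'.im) ^ 2 := by
    rw [hcos]; field_simp; ring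
  have key : (c'.re - c.re - r * (C - C')) ^ 2 + (c'.im - c.im - r * (S - S')) ^ 2 ≤ 0 := by
    nlinarith
  have k1 : (c'.re - c.re - r * (C - C')) ^ 2 ≤ 0 := by
    nlinarith [sq_nonneg (c'.im - c.im - r * (S - S'))]
  have k2 : (c'.im - c.im - r * (S - S')) ^ 2 ≤ 0 := by
    nlinarith [sq_nonneg (c'.re - c.re - r * (C - C'))]
  have k1' := pow_eq_zero_iff (two_ne_zero) |>.mp (le_antisymm k1 (sq_nonneg _))
  have k2' := pow_eq_zero_iff (two_ne_zero) |>.mp (le_antisymm k2 (sq_nonneg _))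
  apply Complex.ext
  · rw [v5_pt_re, v5_pt_re]; linarith
  · rw [v5_pt_im, v5_pt_im]; linarith

/-- points of the disk -/
theorem v5_le {c z : ℂ} {r : ℝ} (hr : 0 ≤ r) (hz : dist z c ≤ r) (θ : ℝ) :
    (z * (starRingEnd ℂ) (AX.e θ)).re ≤ (c * (starRingEnd ℂ) (AX.e θ)).re + r := by
  have h := v5_dist_le hz
  rw [v5_g, v5_g]
  have e1 := Real.sin_sq_add_cos_sq θ
  have h1 : ((z.re - c.re) * Real.cos θ + (z.im - c.im) * Real.sin θ) ^ 2 ≤ r ^ 2 := by
    nlinarith [sq_nonneg ((z.re - c.re) * Real.sin θ - (z.im - c.im) * Real.cos θ)]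
  have h2 := abs_le_of_sq_le_sq h1 hr
  have h3 := (abs_le.mp h2).2
  linarith

theorem v5_h_of_max {S : Set ℂ} {x : ℂ} (hx : x ∈ S) (θ : ℝ)
    (hm : ∀ z ∈ S, (z * (starRingEnd ℂ) (AX.e θ)).re ≤ (x * (starRingEnd ℂ) (AX.e θ)).re) :
    h S θ = (x * (starRingEnd ℂ) (AX.e θ)).re := by
  unfold h
  apply IsGreatest.csSup_eq
  refine ⟨⟨x, hx, rfl⟩, ?_⟩
  rintro _ ⟨z, hz, rfl⟩
  exact hm z hz

theorem v5_K_dist {n : ℕ} {r : ℝ} {c : Fin n → ℂ} {z : ℂ} (hz : z ∈ AX.K r c) (i : Fin n) :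
    dist z (c i) ≤ r := by
  unfold AX.K at hz
  exact Metric.mem_closedBall.mp (Set.mem_iInter.mp hz i)

theorem v5_top (c : ℂ) (r θ : ℝ) : ((c + (r : ℂ) * AX.e θ) * (starRingEnd ℂ) (AX.e θ)).re =
    (c * (starRingEnd ℂ) (AX.e θ)).re + r := by
  rw [v5_g, v5_g, v5_pt_re, v5_pt_im]
  have e1 := Real.sin_sq_add_cos_sq θ
  linear_combination r * e1

/-- (HAR) -/
theorem st_HAR : ST_HAR := by
  intro n r c i θ hr hθ
  rw [← v5_top]
  apply v5_h_of_max hθ
  intro z hz
  rw [v5_top]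
  exact v5_le hr.le (v5_K_dist hz i) θ

/-- (HGP) -/
theorem st_HGP (hV : ST_VTX) : ST_HGP := by
  intro n r c i j b θ hr hb hb' h1 h2
  set b' := b + 2 * AX.dl r (c i) (c j) with hbd
  have hx : c i + (r : ℂ) * AX.e b = c j + (r : ℂ) * AX.e b' :=
    hV r (c i) (c j) b hr (v5_K_dist hb j) (v5_K_dist hb' i)
  apply v5_h_of_max hb
  intro z hz
  have hd0 : 0 ≤ AX.dl r (c i) (c j) := Real.arcsin_nonneg.mpr (by positivity)
  have hd1 : AX.dl r (c i) (c j) ≤ Real.pi / 2 := Real.arcsin_le_pi_div_two _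
  have a1 : (z * (starRingEnd ℂ) (AX.e b)).re ≤
      ((c i + (r : ℂ) * AX.e b) * (starRingEnd ℂ) (AX.e b)).re := by
    rw [v5_top]; exact v5_le hr.le (v5_K_dist hz i) b
  have a2 : (z * (starRingEnd ℂ) (AX.e b')).re ≤
      ((c i + (r : ℂ) * AX.e b) * (starRingEnd ℂ) (AX.e b')).re := by
    rw [hx, v5_top]; exact v5_le hr.le (v5_K_dist hz j) b'
  set x := c i + (r : ℂ) * AX.e b with hxd
  rw [v5_g, v5_g] at a1 a2 ⊢
  have hs : ∀ u v : ℝ, Real.sin (b' - b) * (u * Real.cos θ + v * Real.sin θ) =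
      Real.sin (b' - θ) * (u * Real.cos b + v * Real.sin b) +
        Real.sin (θ - b) * (u * Real.cos b' + v * Real.sin b') := by
    intro u v
    simp only [Real.sin_sub]
    ring
  have s1 : 0 ≤ Real.sin (b' - θ) := Real.sin_nonneg_of_nonneg_of_le_pi (by linarith)
    (by rw [hbd]; linarith)
  have s2 : 0 ≤ Real.sin (θ - b) := Real.sin_nonneg_of_nonneg_of_le_pi (by linarith)
    (by rw [hbd] at h2; linarith)
  rcases eq_or_lt_of_le hd0 with h0 | h0
  · -- `b' = b`
    have : θ = b := le_antisymm (by rw [hbd, ← h0] at h2; linarith) h1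
    rw [this]; exact a1
  rcases eq_or_lt_of_le hd1 with hp | hp
  · -- `b' = b + π`: the point `z` is `x`
    have hbp : b' = b + Real.pi := by rw [hbd, hp]; ring
    rw [hbp, Real.cos_add_pi, Real.sin_add_pi] at a2
    have hz2 := v5_dist_le (v5_K_dist hz i)
    have e1 := Real.sin_sq_add_cos_sq b
    have hxr : x.re = (c i).re + r * Real.cos b := by rw [hxd, v5_pt_re]
    have hxi : x.im = (c i).im + r * Real.sin b := by rw [hxd, v5_pt_im]
    have hin : (z.re - (c i).re) * Real.cos b + (z.im - (c i).im) * Real.sin b = r := by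
      rw [hxr, hxi] at a1 a2
      apply le_antisymm
      · linear_combination a1 + r * e1
      · linear_combination a2 - r * e1
    have k0 : (z.re - x.re) ^ 2 + (z.im - x.im) ^ 2 ≤ 0 := by
      rw [hxr, hxi]
      nlinarith
    have k1 : z.re - x.re = 0 := by
      apply pow_eq_zero_iff (two_ne_zero) |>.mp
      exact le_antisymm (by linarith [sq_nonneg (z.im - x.im)]) (sq_nonneg _)
    have k2 : z.im - x.im = 0 := by
      apply pow_eq_zero_iff (two_ne_zero) |>.mp
      exact le_antisymm (by linarith [sq_nonneg (z.re - x.re)]) (sq_nonneg _)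
    rw [sub_eq_zero.mp k1, sub_eq_zero.mp k2]
  · have s3 : 0 < Real.sin (b' - b) := Real.sin_pos_of_pos_of_lt_pi (by rw [hbd]; linarith)
      (by rw [hbd]; linarith)
    refine le_of_mul_le_mul_left ?_ s3
    rw [hs, hs]
    exact add_le_add (mul_le_mul_of_nonneg_left a1 s1) (mul_le_mul_of_nonneg_left a2 s2)

theorem v5_int (z : ℂ) (u v : ℝ) :
    ∫ θ in u..v, (z * (starRingEnd ℂ) (AX.e θ)).re =
      (z * (starRingEnd ℂ) (-I * AX.e v)).re - (z * (starRingEnd ℂ) (-I * AX.e u)).re := by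
  simp only [v5_g, v5_g']
  rw [intervalIntegral.integral_add, intervalIntegral.integral_const_mul,
    intervalIntegral.integral_const_mul, integral_cos, integral_sin]
  · ring
  · exact (Real.continuous_cos.const_mul _).intervalIntegrable _ _
  · exact (Real.continuous_sin.const_mul _).intervalIntegrable _ _

theorem v5_cont (z : ℂ) : Continuous fun θ : ℝ => (z * (starRingEnd ℂ) (AX.e θ)).re := by
  simp only [v5_g]
  fun_prop

/-- (IAR) -/
theorem st_IAR (hA : ST_HAR) (hG : ST_HGP) (hV : ST_VTX) : ST_IAR := by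
  intro n r c i j a b hr hab hT hb'
  set b' := b + 2 * AX.dl r (c i) (c j) with hbd
  have hd0 : 0 ≤ AX.dl r (c i) (c j) := Real.arcsin_nonneg.mpr (by positivity)
  have hbb : b ≤ b' := by rw [hbd]; linarith
  have hb : b ∈ AX.T r c i := hT ⟨hab, le_refl _⟩
  have hx : c i + (r : ℂ) * AX.e b = c j + (r : ℂ) * AX.e b' :=
    hV r (c i) (c j) b hr (v5_K_dist hb j) (v5_K_dist hb' i)
  have e1 : Set.EqOn (h (AX.K r c)) (fun θ => (c i * (starRingEnd ℂ) (AX.e θ)).re + r)
      (Set.uIcc a b) := by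
    intro θ hθ
    rw [Set.uIcc_of_le hab] at hθ
    exact hA n r c i θ hr (hT hθ)
  have e2 : Set.EqOn (h (AX.K r c))
      (fun θ => ((c i + (r : ℂ) * AX.e b) * (starRingEnd ℂ) (AX.e θ)).re) (Set.uIcc b b') := by
    intro θ hθ
    rw [Set.uIcc_of_le hbb] at hθ
    exact hG n r c i j b θ hr hb hb' hθ.1 hθ.2
  have i1 : IntervalIntegrable (h (AX.K r c)) MeasureTheory.volume a b :=
    (((v5_cont (c i)).add continuous_const).continuousOn.congr e1).intervalIntegrable
  have i2 : IntervalIntegrable (h (AX.K r c)) MeasureTheory.volume b b' :=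
    ((v5_cont _).continuousOn.congr e2).intervalIntegrable
  rw [← intervalIntegral.integral_add_adjacent_intervals i1 i2,
    intervalIntegral.integral_congr e1, intervalIntegral.integral_congr e2,
    intervalIntegral.integral_add ((v5_cont (c i)).intervalIntegrable _ _)
      (continuous_const.intervalIntegrable _ _), v5_int, v5_int,
    intervalIntegral.integral_const, smul_eq_mul]
  have f1 : ((c i + (r : ℂ) * AX.e b) * (starRingEnd ℂ) (-I * AX.e b)).re =
      (c i * (starRingEnd ℂ) (-I * AX.e b)).re := by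
    rw [v5_g', v5_g', v5_pt_re, v5_pt_im]; ring
  have f2 : ((c i + (r : ℂ) * AX.e b) * (starRingEnd ℂ) (-I * AX.e b')).re =
      (c j * (starRingEnd ℂ) (-I * AX.e b')).re := by
    rw [hx, v5_g', v5_g', v5_pt_re, v5_pt_im]; ring
  rw [f1, f2]
  ring

end AD
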